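import Pool.Agent.J4H50.YK.Cls
import Pool.Agent.J4H50.YJ.Main
import Pool.Agent.J4H97.YM.M7
import Pool.Agent.J4H28.YO.Sw

set_option autoImplicit false
set_option linter.unusedSectionVars false
set_option linter.unusedVariables false

/-! # Project YK: the assembly -/

namespace Pool.Agent.J4H50.YK

open MvPolynomial
open Pool.Agent.W428.MOT
open Pool.Agent.TH192.MT (ar zetaO JetS exists_meas)
open Pool.Agent.J4H50.YJ
open Pool.Agent.J4H50.YP (deh hc_empty rest_ord)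
open Pool.Agent.J4H50.YO (RedZeta NV NonExact Sing cone_sing)
open Pool.Agent.J4H50.TF (FEv_of_formal formal_root IsCo OrdF CE coord_ne coord_zero swhF_ne
  swhF_zero)
open Pool.Agent.W574.MO (mf DenRing Kb geo qq geo_mul geo11_mem)
open Pool.Agent.J4H50.YM (KN Dec Dec.mono den_mono swZM)
open Pool.Agent.Y229.PS (IsFormalBFunction formal_of_local)
open Pool.Agent.H628R4.TP (IsLocalBFunction)

theorem gp_surj {V : Type} (z : Pt ℂ V) : ∃ x : V → ℂ, gp x = z := by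
  have hb := IsAlgClosed.algebraMap_bijective_of_isIntegral (k := ℂ) (K := AlgebraicClosure ℂ)
  choose x hx using fun i => hb.2 (z i)
  exact ⟨x, funext hx⟩

theorem geom_crit {V : Type} (H : MvPolynomial V ℂ)
    (hz : ∀ z : V → ℂ, (∀ i, eval z (pderiv i H) = 0) → z = 0) (z : Pt ℂ V)
    (h : ∀ i, aeval z (pderiv i H) = 0) : z = 0 := by
  have hinj : Function.Injective (algebraMap ℂ (AlgebraicClosure ℂ)) :=
    FaithfulSMul.algebraMap_injective _ _
  obtain ⟨x, rfl⟩ := gp_surj z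
  have h1 := hz x fun i => hinj (by
    rw [map_zero, ← gp_eval]
    exact h i)
  rw [h1]
  funext i
  exact map_zero _

theorem whc_split {V : Type} (G : MvPolynomial V ℂ) (w : V → ℕ) (D : ℕ) :
    ((weightedHomogeneousComponent w D G : MvPolynomial V ℂ) : MvPowerSeries V ℂ) +
      ((G - weightedHomogeneousComponent w D G : MvPolynomial V ℂ) : MvPowerSeries V ℂ) =
      (G : MvPowerSeries V ℂ) := by
  rw [← MvPolynomial.coe_add, add_sub_cancel]

theorem whc_ord {V : Type} (G : MvPolynomial V ℂ) (w : V → ℕ) (D : ℕ)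
    (hG : ∀ a, coeff a G ≠ 0 → D ≤ Finsupp.weight w a) :
    OrdF w (D + 1)
      ((G - weightedHomogeneousComponent w D G : MvPolynomial V ℂ) : MvPowerSeries V ℂ) := by
  intro m hm
  by_contra hlt
  apply hm
  rw [MvPolynomial.coeff_coe, coeff_sub, coeff_weightedHomogeneousComponent]
  by_cases h : Finsupp.weight w m = D
  · rw [if_pos h, sub_self]
  · rw [if_neg h, sub_zero]
    by_contra hc
    have := hG m hc
    omega

/-- the facts -/
structure Fk : Prop where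
  w5 : S_W5
  ce : S_CE

/-- the properties of the germs -/
structure GoodJ {R : Type} [CommRing R] (M : Meas ℂ R) (u : Rˣ) {V : Type} [Fintype V]
    (G : MvPolynomial V ℂ) : Prop where
  ne : (G : MvPowerSeries V ℂ) ≠ 0
  zero : MvPowerSeries.constantCoeff (G : MvPowerSeries V ℂ) = 0
  dec : Dec u (KN (G : MvPowerSeries V ℂ)) (zs M ((u⁻¹ : Rˣ) : R) G)

theorem good_swh (hF : Fk) {R : Type} [CommRing R] (M : Meas ℂ R) (u : Rˣ) (hL : M.L = (u : R))
    {V : Type} [Fintype V] [Nonempty V] (G : MvPolynomial V ℂ) (w : V → ℕ) (D : ℕ)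
    (hw : ∀ i, 0 < w i ∧ w i ≤ D) (hD : 0 < D)
    (hG : ∀ a, coeff a G ≠ 0 → D ≤ Finsupp.weight w a)
    (h1 : ∀ i, coeff (Finsupp.single i 1) G = 0)
    (hz : ∀ z : V → ℂ,
      (∀ i, eval z (pderiv i (weightedHomogeneousComponent w D G)) = 0) → z = 0) :
    GoodJ M u G := by
  have hwh := weightedHomogeneousComponent_isWeightedHomogeneous D G (w := w)
  have hord := whc_ord G w D hG
  have hSW := Pool.Agent.J4H28.YO.t_SW (weightedHomogeneousComponent w D G)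
    ((G - weightedHomogeneousComponent w D G : MvPolynomial V ℂ) : MvPowerSeries V ℂ) w D
    (fun i => (hw i).1) hD hwh hord
    (fun i => by
      rw [coeff_weightedHomogeneousComponent]
      split_ifs
      · exact h1 i
      · rfl)
    (fun i => by
      rw [MvPolynomial.coeff_coe, coeff_sub, coeff_weightedHomogeneousComponent, h1 i]
      split_ifs
      · rw [sub_self]
      · rw [sub_zero]) hz
  have hne := swhF_ne hwh hord hz
  have h0 := swhF_zero hD hwh hord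
  rw [whc_split] at hSW hne h0
  refine ⟨hne, h0, ?_⟩
  obtain ⟨po, hpo⟩ := hF.w5 M u hL G w D hw hD hG (geom_crit _ hz)
  rw [hpo]
  refine Pool.Agent.J4H97.YM.t_M7 u w D (fun i => (hw i).1) hD po _ ⟨?_, hSW.2⟩
  rw [neg_div]
  exact hSW.1

theorem good_coord (hF : Fk) {R : Type} [CommRing R] (M : Meas ℂ R) (u : Rˣ) (hL : M.L = (u : R))
    {V : Type} [Fintype V] [DecidableEq V] (f f' : MvPolynomial V ℂ) (hf : GoodJ M u f)
    (φ : V → MvPowerSeries V ℂ) (e : MvPowerSeries V ℂ) (hφ : IsCo φ) (he : IsUnit e)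
    (h : MvPowerSeries.subst φ (f' : MvPowerSeries V ℂ) = e * (f : MvPowerSeries V ℂ)) :
    GoodJ M u f' := by
  have hv : M.L * ((u⁻¹ : Rˣ) : R) = 1 := by rw [hL]; exact u.mul_inv
  have hce : ∀ n, CE (f' : MvPowerSeries V ℂ) (f : MvPowerSeries V ℂ) n := fun n =>
    ⟨φ, e, hφ, he, fun m _ => by rw [h]⟩
  refine ⟨coord_ne hce hf.ne, coord_zero hce hf.zero, ?_⟩
  have h2 : zs M ((u⁻¹ : Rˣ) : R) f' = zs M ((u⁻¹ : Rˣ) : R) f := by
    unfold zs
    congr 1
    funext l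
    rw [hF.ce M _ hv f f' φ e hφ he h l]
  rw [h2]
  exact hf.dec.mono fun a n _ _ h' =>
    ⟨(Pool.Agent.J4H50.YO.p_CO _ _ φ e _ hφ he h).1 h'.1,
      (Pool.Agent.J4H50.YO.p_CO _ _ φ e 0 hφ he h).2 h'.2⟩

theorem cone_basic {V : Type} [Fintype V] (G : MvPolynomial V ℂ) (d : ℕ) (hd : 2 ≤ d)
    (hG1 : ∀ j < d, homogeneousComponent j G = 0) (hG0 : homogeneousComponent d G ≠ 0) :
    (G : MvPowerSeries V ℂ) ≠ 0 ∧
      MvPowerSeries.constantCoeff (G : MvPowerSeries V ℂ) = 0 := by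
  constructor
  · rw [Ne, MvPolynomial.coe_eq_zero_iff]
    rintro rfl
    exact hG0 (map_zero _)
  · have h3 := cone_sing hd (homogeneousComponent_isHomogeneous d G) (rest_ord G d hG1) 0
      (by rw [map_zero]; exact Nat.zero_le 1)
    rwa [coe_split, MvPowerSeries.coeff_zero_eq_constantCoeff_apply] at h3

/-- **The germs of the class.** -/
theorem good_of_SJ (hF : Fk) {R : Type} [CommRing R] (M : Meas ℂ R) (u : Rˣ)
    (hL : M.L = (u : R)) {V : Type} {G : MvPolynomial V ℂ} (h : SJ V G) :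
    ∀ inst : Fintype V, @GoodJ R _ M u V inst G := by
  induction h with
  | @curve V I hV G h0 m hG =>
    intro inst
    obtain rfl := Subsingleton.elim I inst
    refine ⟨?_, ?_, dec_cv fct.toFct M u hL hV G h0 m hG⟩
    · rw [Ne, MvPolynomial.coe_eq_zero_iff]
      rintro rfl
      have e : V ≃ Fin 2 := Fintype.equivFinOfCardEq hV
      have h2 : Pool.Agent.J4H50.IG.IsoC (rename e (0 : MvPolynomial V ℂ)) m := by
        refine Pool.Agent.J4H50.IG.iso_equiv e.symm _ ?_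
        rw [map_zero, map_zero]
        exact hG
      exact Pool.Agent.J4H97.YP.red_of_iso h2 0 0 (by rw [map_zero]; ring) (map_zero _)
    · rw [← MvPowerSeries.coeff_zero_eq_constantCoeff_apply, MvPolynomial.coeff_coe,
        ← MvPolynomial.constantCoeff_eq, h0]
  | @swh V I _ G w D hw hD hG h1 hz =>
    intro inst
    obtain rfl := Subsingleton.elim I inst
    exact good_swh hF M u hL G w D hw hD hG h1 hz
  | @coord V I _ f f' hf φ e hφ he h ih =>
    intro inst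
    obtain rfl := Subsingleton.elim I inst
    exact good_coord hF M u hL f f' (ih I) φ e hφ he h
  | @cone V I _ G d hd hn hG1 hG0 h1 h2 hAA ih =>
    intro inst
    obtain rfl := Subsingleton.elim I inst
    obtain ⟨e1, e2⟩ := cone_basic G d hd hG1 hG0
    exact ⟨e1, e2, dec_cone fct.toFct M u hL G d hd hn hG1 hG0 h1
      (fun P hP hPs i hi => (ih P hP hPs i hi inferInstance).dec) _ (fun a m h => h)
      (kn_top G d hd hG1 hG0 h1 hAA)⟩

/-- from the decomposition to the jets -/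
theorem jets_of_dec {n : ℕ} (f : MvPolynomial (Fin n) ℂ) (hf0 : (f : MvPowerSeries (Fin n) ℂ) ≠ 0)
    (hfc : MvPowerSeries.constantCoeff (f : MvPowerSeries (Fin n) ℂ) = 0)
    (h : ∀ (M : Meas ℂ (MK ℂ)), M.L = ((Lu ℂ : (MK ℂ)ˣ) : MK ℂ) → ∀ b₀ : Polynomial ℂ,
      b₀.eval (-1) = 0 → (∀ a n', KN (f : MvPowerSeries (Fin n) ℂ) a n' → Kb b₀ a n') →
      Dec (Lu ℂ) (Kb b₀) (zs M (((Lu ℂ)⁻¹ : (MK ℂ)ˣ) : MK ℂ) f)) :
    ∃ S : Finset (ℤ × ℤ), (∀ q ∈ S, q.1 < 0 ∧ 0 < q.2 ∧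
      ∀ b : Polynomial ℂ, IsLocalBFunction f b → b.eval ((q.1 : ℂ) / q.2) = 0) ∧
      zetaO f ∈ ratRing ℂ (S : Set (ℤ × ℤ)) := by
  obtain ⟨M, hL, hχ⟩ := exists_meas ℂ
  obtain ⟨b₀, hb₀, hdvd⟩ := exists_gen (f : MvPowerSeries (Fin n) ℂ)
  have hm1 := formal_root hf0 hfc hb₀
  have hK : ∀ a n', KN (f : MvPowerSeries (Fin n) ℂ) a n' → Kb b₀ a n' := by
    intro a n' h
    by_contra hne
    exact Pool.Agent.J4H45.YO.t_NFE _ _ h.2 h.1 (FEv_of_formal hf0 hb₀ hne)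
  obtain ⟨ρ, r, e1, e2, e3, e4⟩ := h M hL b₀ hm1 hK
  have hg : geo (Lu ℂ) 1 1 ∈ DenRing (Lu ℂ) (Kb b₀) := geo11_mem (Lu ℂ) b₀ hm1
  have h5 : ρ = (1 - qq (Lu ℂ) 1 1) * ρ * geo (Lu ℂ) 1 1 := by
    linear_combination (-ρ) * geo_mul (Lu ℂ) le_rfl 1
  have hρ : ρ ∈ DenRing (Lu ℂ) (Kb b₀) := by
    rw [h5]
    exact Subring.mul_mem _ e3 hg
  have h2 : zs M (((Lu ℂ)⁻¹ : (MK ℂ)ˣ) : MK ℂ) f ∈ DenRing (Lu ℂ) (Kb b₀) := by
    rw [e1]
    exact Subring.add_mem _ (Subring.mul_mem _ (Pool.Agent.W574.MO.C_mem _) hρ) e2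
  obtain ⟨S, hS, hSz⟩ := fct.z b₀ _ h2
  refine ⟨S, fun q hq => ⟨(hS q hq).1, (hS q hq).2.1, fun b hb => ?_⟩, ?_⟩
  · obtain ⟨c, rfl⟩ := hdvd b (formal_of_local hb)
    rw [Polynomial.eval_mul, (hS q hq).2.2, zero_mul]
  · rw [zetaO_eq fct.v0 M hL (fun ι _ S => hχ ι S) f]
    refine Subalgebra.mul_mem _ ?_ hSz
    exact Subalgebra.algebraMap_mem (ratRing ℂ (S : Set (ℤ × ℤ))) _

/-- **The local motivic zeta function of a superisolated singularity.** -/
theorem main_sk (hF : Fk) {n : ℕ} (f : MvPolynomial (Fin n) ℂ) (hf : SK (Fin n) f) :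
    ∃ S : Finset (ℤ × ℤ), (∀ q ∈ S, q.1 < 0 ∧ 0 < q.2 ∧
      ∀ b : Polynomial ℂ, IsLocalBFunction f b → b.eval ((q.1 : ℂ) / q.2) = 0) ∧
      zetaO f ∈ ratRing ℂ (S : Set (ℤ × ℤ)) := by
  obtain ⟨d, hd, hn, hG1, hG0, h12, hA⟩ := hf
  have h1 : ∀ P : Fin n → ℂ, P ≠ 0 →
      (∀ l, eval P (pderiv l (homogeneousComponent d f)) = 0) →
      eval P (homogeneousComponent (d + 1) f) ≠ 0 := fun P hP h => (h12 P hP h).1
  obtain ⟨e1, e2⟩ := cone_basic f d hd hG1 hG0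
  refine jets_of_dec f e1 e2 fun M hL b₀ hm1 hK => ?_
  have hdn : Kb b₀ d (Fintype.card (Fin n)) := by
    rcases hA with hA | hA
    · rw [hA, Kb]
      have hdc : (d : ℂ) ≠ 0 := Nat.cast_ne_zero.2 (by omega)
      rw [neg_div, div_self hdc]
      exact hm1
    · exact hK _ _ (kn_top f d hd hG1 hG0 h1 hA)
  exact dec_cone fct.toFct M (Lu ℂ) hL f d hd hn hG1 hG0 h1
    (fun P hP hPs i hi => (good_of_SJ hF M (Lu ℂ) hL ((h12 P hP hPs).2 i hi) inferInstance).dec)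
    (Kb b₀) hK hdn

/-- **The germs of the class `SJ`.** -/
theorem main_sj (hF : Fk) {n : ℕ} (f : MvPolynomial (Fin n) ℂ) (hf : SJ (Fin n) f) :
    ∃ S : Finset (ℤ × ℤ), (∀ q ∈ S, q.1 < 0 ∧ 0 < q.2 ∧
      ∀ b : Polynomial ℂ, IsLocalBFunction f b → b.eval ((q.1 : ℂ) / q.2) = 0) ∧
      zetaO f ∈ ratRing ℂ (S : Set (ℤ × ℤ)) := by
  obtain ⟨M, hL, -⟩ := exists_meas ℂ
  have h0 := good_of_SJ hF M (Lu ℂ) hL hf inferInstance
  refine jets_of_dec f h0.ne h0.zero fun M hL b₀ hm1 hK => ?_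
  exact (good_of_SJ hF M (Lu ℂ) hL hf inferInstance).dec.mono fun a n' _ _ h => hK a n' h

end Pool.Agent.J4H50.YK
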