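import Pool.Agent.J4H50.YK.Stm
import Pool.Agent.J4H50.YP.Stm

set_option autoImplicit false

/-! # Project YK: the class of the germs -/

namespace Pool.Agent.J4H50.YK

open MvPolynomial
open Pool.Agent.J4H50.YP (deh)
open Pool.Agent.J4H50.YO (NV NonExact)
open Pool.Agent.J4H50.IG (IsoC)
open Pool.Agent.J4H50.TF (IsCo)

/-- `SJ V G`: the germ of the polynomial `G` at the origin is

* `curve`: a plane curve with an isolated critical point, or smooth;
* `swh`: semi-weighted-homogeneous: for some weights `w i`, `0 < w i ≤ D`, all terms have at least the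
  weight `D`, and the component `G₀` of weight `D` has an isolated critical point;
* `coord`: in formal coordinates, and up to a unit, the germ of another polynomial of the class;
* `cone`: superisolated: `G = G_d + G_{d+1} + ⋯`, `n ≤ d + 1` for the number `n` of variables, and for all
  singular points `P` of the tangent cone `G_d = 0` in the projective space `G_{d+1}(P) ≠ 0`, and the
  germ of the tangent cone at `P` (`deh`) is in the class. Moreover the form `G_d ^ (- n / d) dx` is not
  exact on the complement of the cone, or there is a de Rham functional (`NV`) at `- n / d` for the germ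
  of the tangent cone at some `P`. -/
inductive SJ : (V : Type) → MvPolynomial V ℂ → Prop
  | curve {V : Type} [Fintype V] (hV : Fintype.card V = 2) (G : MvPolynomial V ℂ)
      (h0 : constantCoeff G = 0) (M : ℕ) (hG : IsoC G M) : SJ V G
  | swh {V : Type} [Fintype V] [Nonempty V] (G : MvPolynomial V ℂ) (w : V → ℕ) (D : ℕ)
      (hw : ∀ i, 0 < w i ∧ w i ≤ D) (hD : 0 < D)
      (hG : ∀ a, coeff a G ≠ 0 → D ≤ Finsupp.weight w a)
      (h1 : ∀ i, coeff (Finsupp.single i 1) G = 0)
      (hz : ∀ z : V → ℂ,
        (∀ i, eval z (pderiv i (weightedHomogeneousComponent w D G)) = 0) → z = 0) : SJ V G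
  | coord {V : Type} [Fintype V] [DecidableEq V] (f f' : MvPolynomial V ℂ) (hf : SJ V f)
      (φ : V → MvPowerSeries V ℂ) (u : MvPowerSeries V ℂ) (hφ : IsCo φ) (hu : IsUnit u)
      (h : MvPowerSeries.subst φ (f' : MvPowerSeries V ℂ) = u * (f : MvPowerSeries V ℂ)) : SJ V f'
  | cone {V : Type} [Fintype V] [DecidableEq V] (G : MvPolynomial V ℂ) (d : ℕ) (hd : 2 ≤ d)
      (hn : Fintype.card V ≤ d + 1) (hG : ∀ j < d, homogeneousComponent j G = 0)
      (hG0 : homogeneousComponent d G ≠ 0)
      (h1 : ∀ P : V → ℂ, P ≠ 0 →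
        (∀ l, eval P (pderiv l (homogeneousComponent d G)) = 0) →
        eval P (homogeneousComponent (d + 1) G) ≠ 0)
      (h2 : ∀ P : V → ℂ, P ≠ 0 →
        (∀ l, eval P (pderiv l (homogeneousComponent d G)) = 0) → ∀ i, P i ≠ 0 →
        SJ {j : V // j ≠ i} (deh P i (homogeneousComponent d G)))
      (hA : NonExact (homogeneousComponent d G) (-((Fintype.card V : ℕ) : ℂ) / d) ∨
        ∃ (P : V → ℂ) (i : V), P i ≠ 0 ∧
          (∀ l, eval P (pderiv l (homogeneousComponent d G)) = 0) ∧
          NV (deh P i (homogeneousComponent d G) : MvPowerSeries {j : V // j ≠ i} ℂ)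
            (-((Fintype.card V : ℕ) : ℂ) / d)) : SJ V G

/-- `SK V G`: the germ of `G` at the origin is superisolated: `G = G_d + G_{d+1} + ⋯`, `n ≤ d + 1` for the
number `n` of variables, and for all singular points `P` of the tangent cone `G_d = 0` in the
projective space `G_{d+1}(P) ≠ 0`, and the germ of the tangent cone at `P` is in the class `SJ`.
Moreover `d = n`, or the form `G_d ^ (- n / d) dx` is not exact on the complement of the cone, or there
is a de Rham functional (`NV`) at `- n / d` for the germ of the tangent cone at some `P`. -/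
def SK (V : Type) [Fintype V] [DecidableEq V] (G : MvPolynomial V ℂ) : Prop :=
  ∃ d : ℕ, 2 ≤ d ∧ Fintype.card V ≤ d + 1 ∧ (∀ j < d, homogeneousComponent j G = 0) ∧
    homogeneousComponent d G ≠ 0 ∧
    (∀ P : V → ℂ, P ≠ 0 → (∀ l, eval P (pderiv l (homogeneousComponent d G)) = 0) →
      eval P (homogeneousComponent (d + 1) G) ≠ 0 ∧
        ∀ i, P i ≠ 0 → SJ {j : V // j ≠ i} (deh P i (homogeneousComponent d G))) ∧
    (Fintype.card V = d ∨
      NonExact (homogeneousComponent d G) (-((Fintype.card V : ℕ) : ℂ) / d) ∨
      ∃ (P : V → ℂ) (i : V), P i ≠ 0 ∧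
        (∀ l, eval P (pderiv l (homogeneousComponent d G)) = 0) ∧
        NV (deh P i (homogeneousComponent d G) : MvPowerSeries {j : V // j ≠ i} ℂ)
          (-((Fintype.card V : ℕ) : ℂ) / d))

end Pool.Agent.J4H50.YK
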