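import Pool.Agent.J4H50.YK.Asm
import Pool.Agent.J4H73.YK.W0
import Pool.Agent.J4H40.YK.W1
import Pool.Agent.J4H82.YK.W2
import Pool.Agent.J4H55.YK.W3
import Pool.Agent.J4H66.YK.W4
import Pool.Agent.J4H72.YK.W5
import Pool.Agent.J4H73.YK.Ce

set_option autoImplicit false

/-! # Project YK: the theorem -/

namespace Pool.Agent.J4H50.YK

open MvPolynomial
open Pool.Agent.W428.MOT
open Pool.Agent.TH192.MT (zetaO)
open Pool.Agent.J4H50.YJ
open Pool.Agent.H628R4.TP (IsLocalBFunction)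
open Pool.Agent.J4H73.YJ (bas)

theorem w0 : S_W0 := @Pool.Agent.J4H73.YK.t_W0 bas

theorem w5 : S_W5 :=
  @Pool.Agent.J4H72.YK.t_W5 bas w0 (Pool.Agent.J4H40.YK.t_W1 bas w0)
    (Pool.Agent.J4H82.YK.t_W2 bas w0)
    (Pool.Agent.J4H66.YK.t_W4 bas w0 (Pool.Agent.J4H55.YK.t_W3 bas w0))

theorem ce : S_CE := @Pool.Agent.J4H73.YK.t_CE bas

theorem fk : Fk := ⟨@w5, @ce⟩

/-- **The local motivic zeta function of a superisolated singularity.** -/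
theorem main_jets {n : ℕ} (f : MvPolynomial (Fin n) ℂ) (hf : SK (Fin n) f) :
    ∃ S : Finset (ℤ × ℤ), (∀ q ∈ S, q.1 < 0 ∧ 0 < q.2 ∧
      ∀ b : Polynomial ℂ, IsLocalBFunction f b → b.eval ((q.1 : ℂ) / q.2) = 0) ∧
      zetaO f ∈ ratRing ℂ (S : Set (ℤ × ℤ)) :=
  main_sk fk f hf

end Pool.Agent.J4H50.YK
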