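import Pool.Agent.J4H50.YJ.Cy

set_option autoImplicit false

/-! # Project YK: the zeta functions of semi-weighted-homogeneous germs, and coordinate changes, with
spaces of jets

Conventions as in `J4H50/YJ/Stm.lean`. `G` is a polynomial without terms of weight less than `D`, for the
weights `w i`, `0 < w i ≤ D`, and `G₀` is its component of weight `D`. -/

namespace Pool.Agent.J4H50.YK

open MvPolynomial
open Pool.Agent.W428.MOT
open Pool.Agent.TH192.MT (ar)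
open Pool.Agent.J4H50.YJ
open Pool.Agent.J4H50.YM (swA swV swZM)

section Defs

variable {K : Type} [Field K] {σ : Type}

/-- the arcs with `D W ord(x_i) ≥ s w_i` for all `i` -/
def Sf (w : σ → ℕ) (D W s : ℕ) : Set (Ac K σ) :=
  {x | ∀ i j, D * W * j < s * w i → PowerSeries.coeff j (x i) = 0}

end Defs

/-- (W0) the volumes of the sets `D ord(x_i) ≥ (m + 1) w_i` -/
def S_W0 : Prop := ∀ {K : Type} [Field K] {R : Type} [CommRing R] (M : Meas K R) (v : R),
  M.L * v = 1 → ∀ {σ : Type} [Fintype σ] (w : σ → ℕ) (D W s : ℕ), (∀ i, 0 < w i) → 0 < D → 0 < W →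
  IsCyl (Sf w D W s : Set (Ac K σ)) ∧
  vol M v (Sf w D W (s + 1) : Set (Ac K σ)) =
    v ^ (Fintype.card σ + ∑ i, ((s + 1) * w i - 1) / (D * W))

/-- (W1) the partition of the arcs at the origin; `x ∈ Sf w D 1 (l + 1)` implies `ord G(x) > l` -/
def S_W1 : Prop := ∀ {K : Type} [Field K] {R : Type} [CommRing R] (M : Meas K R) (v : R),
  M.L * v = 1 → ∀ {σ : Type} [Fintype σ] (G : MvPolynomial σ K) (w : σ → ℕ) (D : ℕ),
  (∀ i, 0 < w i ∧ w i ≤ D) → 0 < D → (∀ a, coeff a G ≠ 0 → D ≤ Finsupp.weight w a) →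
  ∀ l : ℕ, 1 ≤ l → vol M v (A1 G l) = ∑ m ∈ Finset.Icc 1 l,
    vol M v {x ∈ (Sf w D 1 m : Set (Ac K σ)) | x ∉ Sf w D 1 (m + 1) ∧ Od (aeval x G) l}

/-- (W2) the arcs with the leading coefficient `G₀(z₀) ≠ 0`, where `z₀` has the coordinates
`coeff (m w_i / D) (x_i)` for `i ∈ I = {i | D ∣ m w_i}` and `0` for the other `i`. Here `po I` is
`χ {y ∈ K̄ ^ I | G₀(y, 0) ≠ 0}`; the coefficient of `t ^ m` in `G(x)` is `G₀(z₀)` for `x ∈ Sf w D 1 m`. By (SC):
`x_i = t ^ ⌈m w_i / D⌉ ξ_i`, and `⌈m w_i / D⌉ = m w_i / D` if `i ∈ I` and `m w_i / D + 1` if not; then (CC). -/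
def S_W2 : Prop := ∀ {K : Type} [Field K] {R : Type} [CommRing R] (M : Meas K R) (v : R),
  M.L * v = 1 → ∀ {σ : Type} [Fintype σ] (G : MvPolynomial σ K) (w : σ → ℕ) (D : ℕ),
  (∀ i, 0 < w i ∧ w i ≤ D) → 0 < D → (∀ a, coeff a G ≠ 0 → D ≤ Finsupp.weight w a) →
  ∃ po : Finset σ → R, ∀ m : ℕ, 1 ≤ m →
    vol M v {x ∈ (Sf w D 1 m : Set (Ac K σ)) | Od (aeval x G) m} =
      v ^ (Fintype.card σ + ∑ i, m * w i / D) * po (Finset.univ.filter fun i => D ∣ m * w i)

/-- (W3) the arcs of the level exactly `s / W` (all `w i` divide `W`). Then `z₀ ≠ 0`, where `z₀` has the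
coordinates `coeff (s w_i / (D W)) (x_i)` for `D W ∣ s w_i` and `0` for the other `i`; so `∂_i G₀(z₀) ≠ 0` for some
`i` (which satisfies `D W ∣ s (D - w_i)`; take the first one), and with `c = s (D - w_i) / (D W)` and `j + c > s / W` the
coefficient of `t ^ (j + c)` in `G(x)` is `∂_i G₀(z₀) coeff j (x_i)` plus terms which do not depend on the
`coeff j' (x_i)`, `j' ≥ j`. By (SC) (`x_i = t ^ ⌈s w_i / (D W)⌉ ξ_i`) and (LIN), as for the smooth points of the
tangent cone in `Pool.Agent.J4H55.YJ.Two.t_C2` (see the lemmas there). Here `k` is the smallest integer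
greater than `s / W`. -/
def S_W3 : Prop := ∀ {K : Type} [Field K] {R : Type} [CommRing R] (M : Meas K R) (v : R),
  M.L * v = 1 → ∀ {σ : Type} [Fintype σ] (G : MvPolynomial σ K) (w : σ → ℕ) (D W : ℕ),
  (∀ i, 0 < w i ∧ w i ≤ D) → 0 < D → 0 < W → (∀ i, w i ∣ W) →
  (∀ a, coeff a G ≠ 0 → D ≤ Finsupp.weight w a) →
  (∀ z : Pt K σ, (∀ i, aeval z (pderiv i (weightedHomogeneousComponent w D G)) = 0) → z = 0) →
  ∀ s k l : ℕ, 1 ≤ s → s < k * W → (k - 1) * W ≤ s → k ≤ l →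
  vol M v {x ∈ (Sf w D W s : Set (Ac K σ)) | x ∉ Sf w D W (s + 1) ∧ Od (aeval x G) l} =
    vol M v {x ∈ (Sf w D W s : Set (Ac K σ)) | x ∉ Sf w D W (s + 1) ∧
      ∀ j < k, PowerSeries.coeff j (aeval x G) = 0} * ((1 - v) * v ^ (l - k))

/-- (W4) the level between `m` and `m + 1`: the union over the `s`, `m W ≤ s < (m + 1) W`, `W = ∏ i, w i`, of
(W3) (`Sf w D W (m * W) = Sf w D 1 m`) -/
def S_W4 : Prop := ∀ {K : Type} [Field K] {R : Type} [CommRing R] (M : Meas K R) (v : R),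
  M.L * v = 1 → ∀ {σ : Type} [Fintype σ] (G : MvPolynomial σ K) (w : σ → ℕ) (D : ℕ),
  (∀ i, 0 < w i ∧ w i ≤ D) → 0 < D → (∀ a, coeff a G ≠ 0 → D ≤ Finsupp.weight w a) →
  (∀ z : Pt K σ, (∀ i, aeval z (pderiv i (weightedHomogeneousComponent w D G)) = 0) → z = 0) →
  ∀ m l : ℕ, 1 ≤ m → m < l →
  vol M v {x ∈ (Sf w D 1 m : Set (Ac K σ)) | x ∉ Sf w D 1 (m + 1) ∧ Od (aeval x G) l} =
    (vol M v (Sf w D 1 m : Set (Ac K σ)) - vol M v (Sf w D 1 (m + 1) : Set (Ac K σ)) -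
      vol M v {x ∈ (Sf w D 1 m : Set (Ac K σ)) | Od (aeval x G) m}) * ((1 - v) * v ^ (l - m - 1))

/-- (W5) the generating function; in the coefficient of `T ^ l` the summand `m = l` of (W1) is the one of
(W2) (`ord G(x) = l` implies `x ∉ Sf w D 1 (l + 1)`), the summands with `m < l` are given by (W4) -/
def S_W5 : Prop := ∀ {K : Type} [Field K] {R : Type} [CommRing R] (M : Meas K R) (u : Rˣ),
  M.L = (u : R) → ∀ {σ : Type} [Fintype σ] (G : MvPolynomial σ K) (w : σ → ℕ) (D : ℕ),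
  (∀ i, 0 < w i ∧ w i ≤ D) → 0 < D → (∀ a, coeff a G ≠ 0 → D ≤ Finsupp.weight w a) →
  (∀ z : Pt K σ, (∀ i, aeval z (pderiv i (weightedHomogeneousComponent w D G)) = 0) → z = 0) →
  ∃ po : Finset σ → R, zs M ((u⁻¹ : Rˣ) : R) G = swZM u w D po

/-- (CE) formal coordinate changes and units. On the level `l`: the map
`z ↦ (coeff j (φ_i(ar z)))_{j ≤ l}`, for `z` with `ar z` at the origin, is given by polynomials, and so is
its inverse (by the inverse coordinate change); it maps the jets in `A1 f l` to the jets in `A1 f' l`.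
Then `V0` and the invariance of `M.χ` under isomorphisms. -/
def S_CE : Prop := ∀ {R : Type} [CommRing R] (M : Meas ℂ R) (v : R), M.L * v = 1 →
  ∀ {σ : Type} [Fintype σ] [DecidableEq σ] (f f' : MvPolynomial σ ℂ)
  (φ : σ → MvPowerSeries σ ℂ) (u : MvPowerSeries σ ℂ), Pool.Agent.J4H50.TF.IsCo φ → IsUnit u →
  MvPowerSeries.subst φ (f' : MvPowerSeries σ ℂ) = u * (f : MvPowerSeries σ ℂ) →
  ∀ l : ℕ, vol M v (A1 f l) = vol M v (A1 f' l)

end Pool.Agent.J4H50.YK
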